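import Pool.Agent.helper60.EPT.Spec

/-!
# Project EPT (MP_2b48c2_lc), row P1F: the reduction from 3-SAT to cliques
-/

set_option autoImplicit false

namespace Pool.Agent.EPT

open D

/-- append -/
def P1F_ap (a b : D) : D := ofList (a.toList ++ b.toList)

theorem P1F_ap_length (a b : D) : (P1F_ap a b).toList.length = a.toList.length + b.toList.length := by
  unfold P1F_ap
  rw [toList_ofList, List.length_append]

/-- the list of the groups, six times -/
def P1F_N (z : D) : D :=
  P1F_ap (P1F_ap (P1F_ap (grp z) (grp z)) (grp z)) (P1F_ap (P1F_ap (grp z) (grp z)) (grp z))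

theorem P1F_N_length (z : D) : (P1F_N z).toList.length = 6 * (grp z).toList.length := by
  unfold P1F_N
  rw [P1F_ap_length, P1F_ap_length, P1F_ap_length]
  omega

theorem P1F_zip (h : D → D) (L M : List D) :
    List.zipWith cons L (L.map h ++ M) = L.map fun x => cons x (h x) := by
  induction L with
  | nil => simp
  | cons a L ih =>
    simp only [List.map_cons, List.cons_append, List.zipWith_cons_cons, ih]

theorem P1F_vc_length (ch : D) : (vc ch).toList.length = 3 * ch.toList.length := by
  unfold vc
  rw [toList_ofList]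
  induction ch.toList with
  | nil => rfl
  | cons a l ih =>
    rw [List.flatMap_cons, List.length_append, ih, List.length_cons]
    simp only [List.length_cons, List.length_nil]
    omega

theorem P1F_bits (a : D) : a ∈ bits.toList ↔ a = nil ∨ a = one := by
  unfold bits
  simp

theorem P1F_num (k b s : ℕ) (hb : b + 1 ≤ 7 ^ (6 * k) * (6 * k + 2) * (7 + 2) + 1)
    (hs : s ≤ 200 * (k + 1) ^ 3 * (b + 1) ^ 2) : s ≤ 2 ^ (41 * (k + 1)) := by
  have h1 : k + 1 ≤ 2 ^ k := Nat.lt_two_pow_self
  have h2 : (7 : ℕ) ^ (6 * k) ≤ 2 ^ (18 * k) := by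
    calc (7 : ℕ) ^ (6 * k) ≤ 8 ^ (6 * k) := Nat.pow_le_pow_left (by norm_num) _
      _ = 2 ^ (18 * k) := by
        rw [show (8 : ℕ) = 2 ^ 3 by norm_num, ← pow_mul]
        congr 1
        ring
  have h3 : b + 1 ≤ 2 ^ (19 * k + 6) := by
    have e1 : (1 : ℕ) ≤ 2 ^ (18 * k) := Nat.one_le_two_pow
    calc b + 1 ≤ 7 ^ (6 * k) * (6 * k + 2) * (7 + 2) + 1 := hb
      _ ≤ 2 ^ (18 * k) * (6 * k + 2) * (7 + 2) + 2 ^ (18 * k) := by gcongr
      _ = 2 ^ (18 * k) * (54 * k + 19) := by ring
      _ ≤ 2 ^ (18 * k) * (64 * 2 ^ k) := by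
        apply Nat.mul_le_mul_left
        omega
      _ = 2 ^ (19 * k + 6) := by
        rw [show (64 : ℕ) = 2 ^ 6 by norm_num, ← pow_add, ← pow_add]
        congr 1
        ring
  calc s ≤ 200 * (k + 1) ^ 3 * (b + 1) ^ 2 := hs
    _ ≤ 2 ^ 8 * (2 ^ k) ^ 3 * (2 ^ (19 * k + 6)) ^ 2 := by
      gcongr
      norm_num
    _ = 2 ^ (8 + k * 3 + (19 * k + 6) * 2) := by
      rw [← pow_mul, ← pow_mul, ← pow_add, ← pow_add]
    _ ≤ 2 ^ (41 * (k + 1)) := by
      apply Nat.pow_le_pow_right (by norm_num)
      omega

theorem P1F (hC : Cal) (hL : CalL) (hPBC : PBC_stmt) (hRBA : RBA_stmt) (hRCG : RCG_stmt) (hRCO : RCO_stmt)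
    (hGRF : GRF_stmt) (hGRS : GRS_stmt) (hGRA : GRA_stmt) (hCPL : CPL_stmt) (hSND : SND_stmt) (hGSZ : GSZ_stmt)
    (hTUM : TUM_stmt) (hTUS : TUS_stmt) (hTUR : TUR_stmt) : P1F_stmt := by
  have hap : ∀ a b : D → D, FP a → FP b → FP fun x => P1F_ap (a x) (b x) := hL.app
  have hgrp : FP grp := hGRF
  have hN : FP P1F_N := by
    have h2 := hap _ _ hgrp hgrp
    have h3 := hap _ _ h2 hgrp
    exact hap _ _ h3 h3
  obtain ⟨-, pSS, pAdd, pPow, pLe, -⟩ := hPBC
  obtain ⟨rComp, rFP, rCh, rSize⟩ := hRCG
  have hS : PB (fun z => 2 ^ (grp z).toList.length + z.size) size :=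
    pLe _ _ _ (pSS _) (fun z => Nat.le_add_left _ _)
  refine ⟨fun z => gra (grp z) (tup bits (P1F_N z)), ?_, ?_, ?_, ?_⟩
  · have r1 : RT (fun z => 2 ^ (grp z).toList.length + z.size) grp := rCh _ _ _ hgrp hS
    have r2 : RT (fun z => 2 ^ (grp z).toList.length + z.size) (fun z => cons bits (P1F_N z)) :=
      rCh _ _ _ (hC.cons _ _ (hC.const bits) hN) hS
    have r3 : RT (fun z => 2 ^ (grp z).toList.length + z.size) (fun z => tup bits (P1F_N z)) := by
      refine rComp _ _ (fun x => tup x.fst x.snd) (fun z => cons bits (P1F_N z)) hTUR r2 ?_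
      refine (pAdd _ _ _ ?_ (rSize _ _ r2)).1
      refine pLe _ _ _ (pPow _ _ 18 (pSS _)) ?_
      intro z
      show (bits.size + 1) ^ (P1F_N z).toList.length ≤ (2 ^ (grp z).toList.length + z.size + 18) ^ 18
      have e1 : (bits.size + 1) = 2 ^ 3 := by
        unfold bits one
        simp
      rw [e1, P1F_N_length, ← pow_mul]
      calc (2 : ℕ) ^ (3 * (6 * (grp z).toList.length)) = (2 ^ (grp z).toList.length) ^ 18 := by
            rw [← pow_mul]
            congr 1
            ring
        _ ≤ (2 ^ (grp z).toList.length + z.size + 18) ^ 18 := by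
            apply Nat.pow_le_pow_left
            omega
    have r4 := (hRCO _ hS _ _ r1 r3).1
    exact rFP _ (fun x => gra x.fst x.snd) _ hGRA.2 r4
  · intro z
    obtain ⟨g1, g2, g3, g4, g5⟩ := hGRS z
    constructor
    · intro hz
      refine hCPL z (grp z) _ g1 g5 ?_ hz
      intro g hg v
      have hlen : (vc g.snd).toList.length ≤ 6 * (grp z).toList.length := by
        have := (g2 g hg).2
        rw [P1F_vc_length]
        omega
      refine ⟨ofList ((vc g.snd).toList.map (fun x => if v x then one else nil) ++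
        List.replicate (6 * (grp z).toList.length - (vc g.snd).toList.length) nil), ?_, ?_⟩
      · rw [hTUM, toList_ofList, P1F_N_length]
        refine ⟨?_, ?_⟩
        · rw [List.length_append, List.length_map, List.length_replicate]
          omega
        · intro a ha
          rw [P1F_bits]
          rw [List.mem_append, List.mem_map] at ha
          rcases ha with ⟨x, -, rfl⟩ | ha
          · by_cases hx : v x = true
            · right
              rw [if_pos hx]
            · left
              rw [if_neg hx]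
          · left
            exact (List.mem_replicate.1 ha).2
      · unfold zp
        rw [toList_ofList, P1F_zip]
    · intro hq
      refine hSND z (grp z) _ g1 g5 ?_ hq
      intro g hg β hβ
      rw [hTUM] at hβ
      rw [hβ.1, P1F_N_length, P1F_vc_length]
      have := (g2 g hg).2
      omega
  · intro z
    show (gra (grp z) (tup bits (P1F_N z))).fst.toList.length = (grp z).toList.length
    unfold gra
    rw [fst_cons, toList_ofList, List.length_map]
  · refine ⟨41, fun z => ?_⟩
    obtain ⟨g1, g2, g3, g4, g5⟩ := hGRS z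
    have hs := hGSZ (grp z) (tup bits (P1F_N z)) _ rfl g2 (by
      intro β hβ a ha
      rw [hTUM] at hβ
      have h1 := hβ.2 a ha
      rw [P1F_bits] at h1
      rcases h1 with rfl | rfl
      · simp
      · unfold one
        simp)
    refine P1F_num _ (tup bits (P1F_N z)).toList.length _ ?_ hs
    have h1 := length_le_size (tup bits (P1F_N z))
    have h2 := hTUS bits (P1F_N z).toList.length
    have e1 : bits.size = 7 := by
      unfold bits one
      simp
    rw [e1, P1F_N_length] at h2
    refine le_trans h1 ?_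
    unfold tup
    rw [P1F_N_length]
    exact h2

end Pool.Agent.EPT
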